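import Pool.Agent.Y952.ST2.Core

set_option autoImplicit false

namespace Pool.Agent.Y952.ST2

open Pool.Agent.W179.Erdos Pool.Agent.W179.ST

/-- the vertices of the base graph: `a` apexes and an odd cycle with `n` vertices -/
abbrev UU (a n : ℕ) : Type := Fin a ⊕ Fin n

def BAdj (a n : ℕ) : UU a n → UU a n → Prop
  | Sum.inl i, Sum.inl j => i ≠ j
  | Sum.inl _, Sum.inr _ => True
  | Sum.inr _, Sum.inl _ => True
  | Sum.inr u, Sum.inr v => u ≠ v ∧ (u.val + 1 = v.val ∨ v.val + 1 = u.val ∨
      (u.val = 0 ∧ v.val + 1 = n) ∨ (v.val = 0 ∧ u.val + 1 = n))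

/-- the join of a complete graph with a cycle -/
def BG (a n : ℕ) : SimpleGraph (UU a n) where
  Adj := BAdj a n
  symm := ⟨by
    rintro (i | u) (j | v) h
    · exact Ne.symm h
    · trivial
    · trivial
    · refine ⟨h.1.symm, ?_⟩
      rcases h.2 with h | h | h | h
      · exact Or.inr (Or.inl h)
      · exact Or.inl h
      · exact Or.inr (Or.inr (Or.inr h))
      · exact Or.inr (Or.inr (Or.inl h))⟩
  loopless := ⟨by
    rintro (i | u) h
    · exact h rfl
    · exact h.1 rfl⟩

/-- the first apex is joined to the cycle vertices `0` and `g - 2`, and the cycle vertices `0, …, M`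
form a path -/
def CAdj (a n g M : ℕ) : UU a n → UU a n → Prop
  | Sum.inl _, Sum.inl _ => False
  | Sum.inl i, Sum.inr u => i.val = 0 ∧ (u.val = 0 ∨ u.val + 2 = g)
  | Sum.inr u, Sum.inl i => i.val = 0 ∧ (u.val = 0 ∨ u.val + 2 = g)
  | Sum.inr u, Sum.inr v => (u.val + 1 = v.val ∧ v.val ≤ M) ∨ (v.val + 1 = u.val ∧ u.val ≤ M)

def CC (a n g M : ℕ) : SimpleGraph (UU a n) where
  Adj := CAdj a n g M
  symm := ⟨by
    rintro (i | u) (j | v) h
    · exact h
    · exact h
    · exact h
    · rcases h with h | h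
      · exact Or.inr h
      · exact Or.inl h⟩
  loopless := ⟨by
    rintro (i | u) h
    · exact h
    · rcases h with h | h <;> omega⟩

theorem cc_le {a n g M : ℕ} {p q : UU a n} (h : (CC a n g M).Adj p q) : (BG a n).Adj p q := by
  rcases p with i | u <;> rcases q with j | v
  · exact absurd h id
  · trivial
  · trivial
  · refine ⟨?_, ?_⟩
    · rintro rfl
      rcases h with h | h <;> omega
    · rcases h with h | h
      · exact Or.inl h.1
      · exact Or.inr (Or.inl h.1)

/-- position on the path -/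
def pos {a n : ℕ} : UU a n → ℤ
  | Sum.inl _ => 0
  | Sum.inr u => u.val

/-- every cycle of `CC` has length at least `g` -/
theorem cc_long {a n g M l : ℕ} {f : ℕ → UU a n} (h : FCyc (CC a n g M) l f) : g ≤ l := by
  classical
  have h3 := h.three
  -- the apex is on the cycle
  obtain ⟨i0, hi0, c0, hc0⟩ : ∃ i < l, ∃ c, f i = Sum.inl c := by
    by_contra hcon
    push Not at hcon
    have hr : ∀ i < l, ∃ u : Fin n, f i = Sum.inr u := by
      intro i hi
      rcases hf : f i with c | u
      · exact absurd hf (hcon i hi c)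
      · exact ⟨u, rfl⟩
    -- the largest position
    obtain ⟨m, hm, hmax⟩ := Finset.exists_max_image (Finset.range l) (fun i => pos (f i))
      ⟨0, Finset.mem_range.mpr (by omega)⟩
    have hml : m < l := Finset.mem_range.mp hm
    set f' : ℕ → UU a n := fun i => f ((i + m) % l) with hf'
    have h' : FCyc (CC a n g M) l f' := FCyc.rotate h m
    obtain ⟨u0, hu0⟩ := hr ((0 + m) % l) (Nat.mod_lt _ (by omega))
    obtain ⟨u1, hu1⟩ := hr ((1 + m) % l) (Nat.mod_lt _ (by omega))
    obtain ⟨u2, hu2⟩ := hr ((l - 1 + m) % l) (Nat.mod_lt _ (by omega))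
    have e0 : (0 + m) % l = m := by rw [zero_add, Nat.mod_eq_of_lt hml]
    have g1 := hmax ((1 + m) % l) (Finset.mem_range.mpr (Nat.mod_lt _ (by omega)))
    have g2 := hmax ((l - 1 + m) % l) (Finset.mem_range.mpr (Nat.mod_lt _ (by omega)))
    have hu0' : f m = Sum.inr u0 := by rw [← hu0, e0]
    rw [hu0', hu1] at g1
    rw [hu0', hu2] at g2
    simp only [pos] at g1 g2
    have a1 := h'.adj 0 (by omega)
    have a2 := h'.close
    simp only [hf', zero_add] at a1 a2
    rw [zero_add] at hu0
    rw [hu0, hu1] at a1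
    rw [hu0, hu2] at a2
    have b1 : (u0.val + 1 = u1.val ∧ u1.val ≤ M) ∨ (u1.val + 1 = u0.val ∧ u0.val ≤ M) := a1
    have b2 : (u2.val + 1 = u0.val ∧ u0.val ≤ M) ∨ (u0.val + 1 = u2.val ∧ u2.val ≤ M) := a2
    have e3 : u1 = u2 := Fin.ext (by omega)
    have := h'.inj 1 (by omega) (l - 1) (by omega) (by
      simp only [hf']
      rw [hu1, hu2, e3])
    omega
  -- rotate
  set f' : ℕ → UU a n := fun i => f ((i + i0) % l) with hf'
  have h' : FCyc (CC a n g M) l f' := FCyc.rotate h i0
  have hz : f' 0 = Sum.inl c0 := by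
    simp only [hf', zero_add, Nat.mod_eq_of_lt hi0]
    exact hc0
  have a1 := h'.adj 0 (by omega)
  have a2 := h'.close
  rw [hz] at a1 a2
  have hc00 : c0.val = 0 := by
    rcases hf1 : f' (0 + 1) with c | u
    · rw [hf1] at a1; exact absurd a1 id
    · rw [hf1] at a1; exact a1.1
  have hr : ∀ i, 0 < i → i < l → ∃ u : Fin n, f' i = Sum.inr u := by
    intro i hi hil
    rcases hf1 : f' i with c | u
    · exfalso
      -- `c` is the apex `0`
      have hstep := FCyc.step h' i hil
      rw [hf1] at hstep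
      have hc : c.val = 0 := by
        rcases hf2 : f' ((i + 1) % l) with c' | u
        · rw [hf2] at hstep; exact absurd hstep id
        · rw [hf2] at hstep; exact hstep.1
      have : c = c0 := Fin.ext (by omega)
      rw [this, ← hz] at hf1
      have := h'.inj i hil 0 (by omega) hf1
      omega
    · exact ⟨u, rfl⟩
  have hwalk : ∀ i, i + 2 ≤ l → |pos (f' (i + 1)) - pos (f' 1)| ≤ i := by
    intro i
    induction i with
    | zero => intro _; simp
    | succ i ih =>
      intro hi
      have h1 := ih (by omega)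
      obtain ⟨u, hu⟩ := hr (i + 1) (by omega) (by omega)
      obtain ⟨v, hv⟩ := hr (i + 1 + 1) (by omega) (by omega)
      have h2 := h'.adj (i + 1) (by omega)
      rw [hu, hv] at h2
      have h3 : (u.val + 1 = v.val ∧ v.val ≤ M) ∨ (v.val + 1 = u.val ∧ u.val ≤ M) := h2
      have h4 : |pos (f' (i + 1 + 1)) - pos (f' (i + 1))| ≤ 1 := by
        rw [hu, hv, abs_le]
        simp only [pos]
        omega
      have h5 := abs_sub_le (pos (f' (i + 1 + 1))) (pos (f' (i + 1))) (pos (f' 1))
      push_cast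
      linarith
  obtain ⟨u, hu⟩ := hr 1 (by omega) (by omega)
  obtain ⟨v, hv⟩ := hr (l - 1) (by omega) (by omega)
  have h5 := hwalk (l - 2) (by omega)
  rw [show l - 2 + 1 = l - 1 by omega, hu, hv] at h5
  rw [zero_add, hu] at a1
  rw [hv] at a2
  have b1 : c0.val = 0 ∧ (u.val = 0 ∨ u.val + 2 = g) := a1
  have b2 : c0.val = 0 ∧ (v.val = 0 ∨ v.val + 2 = g) := a2
  have hne : u ≠ v := by
    intro huv
    have := h'.inj 1 (by omega) (l - 1) (by omega) (by rw [hu, hv, huv])
    omega
  have hne' : u.val ≠ v.val := fun h => hne (Fin.ext h)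
  rw [abs_le] at h5
  simp only [pos] at h5
  omega

/-- the cycle of length `g` -/
theorem cc_fcyc {a n g M : ℕ} (hg : 3 ≤ g) (hgM : g ≤ M + 2) (hMn : M < n)
    (f : ℕ → UU (a + 1) n) (hf0 : f 0 = Sum.inl 0)
    (hf : ∀ i (h : i < n), i + 2 ≤ g → f (i + 1) = Sum.inr ⟨i, h⟩) :
    FCyc (CC (a + 1) n g M) g f := by
  refine ⟨hg, ?_, ?_, ?_⟩
  · intro i hi j hj hij
    rcases Nat.eq_zero_or_pos i with rfl | hi0
    · rcases Nat.eq_zero_or_pos j with rfl | hj0
      · rfl
      · exfalso
        obtain ⟨j, rfl⟩ : ∃ j', j = j' + 1 := ⟨j - 1, by omega⟩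
        rw [hf0, hf j (by omega) (by omega)] at hij
        exact Sum.inl_ne_inr hij
    · obtain ⟨i, rfl⟩ : ∃ i', i = i' + 1 := ⟨i - 1, by omega⟩
      rcases Nat.eq_zero_or_pos j with rfl | hj0
      · exfalso
        rw [hf0, hf i (by omega) (by omega)] at hij
        exact Sum.inr_ne_inl hij
      · obtain ⟨j, rfl⟩ : ∃ j', j = j' + 1 := ⟨j - 1, by omega⟩
        rw [hf i (by omega) (by omega), hf j (by omega) (by omega)] at hij
        have := Fin.mk.inj (Sum.inr.inj hij)
        omega
  · intro i hi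
    rcases Nat.eq_zero_or_pos i with rfl | hi0
    · rw [hf0, hf 0 (by omega) (by omega)]
      exact ⟨rfl, Or.inl rfl⟩
    · obtain ⟨i, rfl⟩ : ∃ i', i = i' + 1 := ⟨i - 1, by omega⟩
      rw [hf i (by omega) (by omega), hf (i + 1) (by omega) (by omega)]
      left
      exact ⟨rfl, by show i + 1 ≤ M; omega⟩
  · obtain ⟨j, hj⟩ : ∃ j, g - 1 = j + 1 := ⟨g - 2, by omega⟩
    rw [hj, hf0, hf j (by omega) (by omega)]
    exact ⟨rfl, Or.inr (by show j + 2 = g; omega)⟩

/-- a proper colouring of the base graph with `a + 3` colours -/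
def sig (a n : ℕ) : UU a n → Fin (a + 3)
  | Sum.inl i => ⟨i.val + 3, by omega⟩
  | Sum.inr u => if u.val + 1 = n then ⟨2, by omega⟩ else ⟨u.val % 2, by omega⟩

theorem sig_proper {a n : ℕ} (hn : n % 2 = 1) (h3 : 3 ≤ n) {p q : UU a n} (h : (BG a n).Adj p q) :
    sig a n p ≠ sig a n q := by
  rcases p with i | u <;> rcases q with j | v
  · intro he
    have h1 : i ≠ j := h
    have := congrArg Fin.val he
    simp only [sig] at this
    exact h1 (Fin.ext (by omega))
  · intro he
    have := congrArg Fin.val he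
    simp only [sig] at this
    split_ifs at this <;> (try simp only at this) <;> omega
  · intro he
    have := congrArg Fin.val he
    simp only [sig] at this
    split_ifs at this <;> (try simp only at this) <;> omega
  · intro he
    have h1 := h.1
    have h2 := h.2
    have h4 : u.val ≠ v.val := fun h => h1 (Fin.ext h)
    have := congrArg Fin.val he
    simp only [sig] at this
    split_ifs at this <;> (try simp only at this) <;> omega

/-- three colours on `CC` -/
theorem sig_cc {a n g M : ℕ} (hgM : g ≤ M + 2) (hg : 2 ≤ g) (hMn : M + 1 < n) {p q : UU a n}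
    (h : (CC a n g M).Adj p q) :
    (sig a n p).val = 0 ∨ (sig a n p).val = 1 ∨ (sig a n p).val = 3 := by
  rcases p with i | u <;> rcases q with j | v
  · exact absurd h id
  · have h1 : i.val = 0 ∧ (v.val = 0 ∨ v.val + 2 = g) := h
    right; right
    simp only [sig]
    omega
  · have h1 : j.val = 0 ∧ (u.val = 0 ∨ u.val + 2 = g) := h
    simp only [sig]
    rw [if_neg (by omega)]
    simp only
    omega
  · have h1 : (u.val + 1 = v.val ∧ v.val ≤ M) ∨ (v.val + 1 = u.val ∧ u.val ≤ M) := h
    simp only [sig]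
    rw [if_neg (by omega)]
    simp only
    omega

/-- the base graph needs `a + 3` colours -/
theorem bg_not_col {a n : ℕ} (hn : n % 2 = 1) (h3 : 3 ≤ n) : ¬ (BG a n).Colorable (a + 2) := by
  classical
  rintro ⟨c⟩
  let A : Finset (Fin (a + 2)) := Finset.univ.image fun i : Fin a => c (Sum.inl i)
  have hA : A.card = a := by
    rw [Finset.card_image_of_injective, Finset.card_univ, Fintype.card_fin]
    intro i j hij
    by_contra hne
    exact c.valid (show (BG a n).Adj (Sum.inl i) (Sum.inl j) from hne) hij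
  have hAc : Aᶜ.card = 2 := by
    rw [Finset.card_compl, hA, Fintype.card_fin]
    omega
  have hmem : ∀ u : Fin n, c (Sum.inr u) ∈ Aᶜ := by
    intro u
    rw [Finset.mem_compl]
    intro h
    obtain ⟨i, -, hi⟩ := Finset.mem_image.mp h
    exact c.valid (show (BG a n).Adj (Sum.inl i) (Sum.inr u) from trivial) hi
  obtain ⟨α, β, hab, hAe⟩ := Finset.card_eq_two.mp hAc
  have h2 : ∀ u : Fin n, c (Sum.inr u) = α ∨ c (Sum.inr u) = β := by
    intro u
    have := hmem u
    rw [hAe] at this
    simpa using this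
  have key : ∀ i (h : i < n), (c (Sum.inr ⟨i, h⟩) = c (Sum.inr ⟨0, by omega⟩)) ↔ i % 2 = 0 := by
    intro i
    induction i with
    | zero => intro h; simp
    | succ i ih =>
      intro h
      have h4 := ih (by omega)
      have h5 : c (Sum.inr ⟨i, by omega⟩) ≠ c (Sum.inr ⟨i + 1, h⟩) :=
        c.valid (show (BG a n).Adj (Sum.inr ⟨i, by omega⟩) (Sum.inr ⟨i + 1, h⟩) from
          ⟨by simp [Fin.ext_iff], Or.inl rfl⟩)
      have h6 := h2 ⟨i, by omega⟩
      have h7 := h2 ⟨i + 1, h⟩
      have h8 := h2 ⟨0, by omega⟩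
      constructor
      · intro h9
        have h10 : ¬ (i % 2 = 0) := by
          intro h11
          apply h5
          rw [h4.mpr h11, h9]
        omega
      · intro h9
        have h10 : ¬ (i % 2 = 0) := by omega
        have h11 : c (Sum.inr ⟨i, by omega⟩) ≠ c (Sum.inr ⟨0, by omega⟩) := fun h => h10 (h4.mp h)
        rcases h6 with h6 | h6 <;> rcases h7 with h7 | h7 <;> rcases h8 with h8 | h8 <;>
          rw [h6] at h5 h11 <;> rw [h7] at h5 ⊢ <;> rw [h8] at h11 ⊢ <;>
          first
            | rfl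
            | exact absurd rfl h5
            | exact absurd rfl h11
  have h4 := (key (n - 1) (by omega)).mpr (by omega)
  refine c.valid (show (BG a n).Adj (Sum.inr ⟨n - 1, by omega⟩) (Sum.inr ⟨0, by omega⟩) from
    ⟨?_, Or.inr (Or.inr (Or.inr ⟨rfl, ?_⟩))⟩) h4
  · simp only [ne_eq, Fin.mk.injEq]
    omega
  · show n - 1 + 1 = n
    omega

/-- deleting a path edge -/
def tau1 (a n i : ℕ) : UU a n → Fin (a + 2)
  | Sum.inl j => ⟨j.val + 2, by omega⟩
  | Sum.inr u => if u.val ≤ i then ⟨u.val % 2, by omega⟩ else ⟨(u.val + 1) % 2, by omega⟩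

theorem tau1_spec {a n i : ℕ} (hn : n % 2 = 1) (h3 : 3 ≤ n) (hi : i + 1 < n) {p q : UU a n}
    (h : (BG a n).Adj p q) (he : tau1 a n i p = tau1 a n i q) :
    s(p, q) = s(Sum.inr ⟨i, by omega⟩, Sum.inr ⟨i + 1, hi⟩) := by
  rcases p with j | u <;> rcases q with j' | v
  · exfalso
    have h1 : j ≠ j' := h
    have := congrArg Fin.val he
    simp only [tau1] at this
    exact h1 (Fin.ext (by omega))
  · exfalso
    have := congrArg Fin.val he
    simp only [tau1] at this
    split_ifs at this <;> (try simp only at this) <;> omega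
  · exfalso
    have := congrArg Fin.val he
    simp only [tau1] at this
    split_ifs at this <;> (try simp only at this) <;> omega
  · have h1 := h.1
    have h2 := h.2
    have h4 : u.val ≠ v.val := fun h => h1 (Fin.ext h)
    have := congrArg Fin.val he
    simp only [tau1] at this
    have h5 : (u.val = i ∧ v.val = i + 1) ∨ (v.val = i ∧ u.val = i + 1) := by
      split_ifs at this <;> (try simp only at this) <;> omega
    rcases h5 with ⟨h5, h6⟩ | ⟨h5, h6⟩
    · exact Sym2.eq_iff.mpr (Or.inl ⟨congrArg Sum.inr (Fin.ext h5), congrArg Sum.inr (Fin.ext h6)⟩)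
    · exact Sym2.eq_iff.mpr (Or.inr ⟨congrArg Sum.inr (Fin.ext h6), congrArg Sum.inr (Fin.ext h5)⟩)

/-- deleting an edge at the first apex -/
def tau2 (a n i : ℕ) : UU a n → Fin (a + 2)
  | Sum.inl j => ⟨j.val + 2, by omega⟩
  | Sum.inr u => if u.val = i then (if h : 0 < a then ⟨2, by omega⟩ else ⟨0, by omega⟩) else
      if u.val < i then ⟨u.val % 2, by omega⟩ else ⟨(u.val + 1) % 2, by omega⟩

theorem tau2_spec {a n i : ℕ} (hn : n % 2 = 1) (h3 : 3 ≤ n) (hi : i < n) {p q : UU (a + 1) n}
    (h : (BG (a + 1) n).Adj p q) (he : tau2 (a + 1) n i p = tau2 (a + 1) n i q) :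
    s(p, q) = s(Sum.inl 0, Sum.inr ⟨i, hi⟩) := by
  rcases p with j | u <;> rcases q with j' | v
  · exfalso
    have h1 : j ≠ j' := h
    have := congrArg Fin.val he
    simp only [tau2] at this
    exact h1 (Fin.ext (by omega))
  · have := congrArg Fin.val he
    simp only [tau2, Nat.succ_pos, dif_pos] at this
    have h5 : j.val = 0 ∧ v.val = i := by
      split_ifs at this <;> (try simp only at this) <;> omega
    rw [show j = 0 from Fin.ext h5.1, show v = ⟨i, hi⟩ from Fin.ext h5.2]
  · have := congrArg Fin.val he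
    simp only [tau2, Nat.succ_pos, dif_pos] at this
    have h5 : j'.val = 0 ∧ u.val = i := by
      split_ifs at this <;> (try simp only at this) <;> omega
    rw [show j' = 0 from Fin.ext h5.1, show u = ⟨i, hi⟩ from Fin.ext h5.2, Sym2.eq_swap]
  · exfalso
    have h1 := h.1
    have h2 := h.2
    have h4 : u.val ≠ v.val := fun h => h1 (Fin.ext h)
    have := congrArg Fin.val he
    simp only [tau2, Nat.succ_pos, dif_pos] at this
    split_ifs at this <;> (try simp only at this) <;> omega

/-- every edge of `CC` is critical in the base graph -/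
theorem crit_edge {a n g M : ℕ} (hn : n % 2 = 1) (hgM : g ≤ M + 2) (hg : 2 ≤ g) (hMn : M + 1 < n)
    {p q : UU (a + 1) n} (h : (CC (a + 1) n g M).Adj p q) :
    ∃ τ : UU (a + 1) n → Fin (a + 1 + 2), ∀ x y, (BG (a + 1) n).Adj x y → τ x = τ y →
      s(x, y) = s(p, q) := by
  rcases p with i | u <;> rcases q with j | v
  · exact absurd h id
  · have h1 : i.val = 0 ∧ (v.val = 0 ∨ v.val + 2 = g) := h
    have h2 : i = 0 := Fin.ext h1.1
    subst h2
    exact ⟨tau2 (a + 1) n v.val, fun x y hxy he => tau2_spec hn (by omega) v.isLt hxy he⟩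
  · have h1 : j.val = 0 ∧ (u.val = 0 ∨ u.val + 2 = g) := h
    have h2 : j = 0 := Fin.ext h1.1
    subst h2
    exact ⟨tau2 (a + 1) n u.val, fun x y hxy he =>
      (tau2_spec hn (by omega) u.isLt hxy he).trans Sym2.eq_swap⟩
  · have h1 : (u.val + 1 = v.val ∧ v.val ≤ M) ∨ (v.val + 1 = u.val ∧ u.val ≤ M) := h
    rcases h1 with ⟨h1, -⟩ | ⟨h1, -⟩
    · have hv : v = ⟨u.val + 1, by omega⟩ := Fin.ext h1.symm
      rw [hv]
      exact ⟨tau1 (a + 1) n u.val, fun x y hxy he => tau1_spec hn (by omega) (by omega) hxy he⟩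
    · have hv : u = ⟨v.val + 1, by omega⟩ := Fin.ext h1.symm
      rw [hv]
      exact ⟨tau1 (a + 1) n v.val, fun x y hxy he =>
        (tau1_spec hn (by omega) (by omega) hxy he).trans Sym2.eq_swap⟩

end Pool.Agent.Y952.ST2
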