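import Pool.Agent.W179.ST

set_option autoImplicit false

/-! Graphs built from a finite graph `B` by replacing the edges outside a subgraph `C` with long
gadgets (generalises the construction of `Pool.Agent.W179.ST`, which is the case `B = K_k`). -/

namespace Pool.Agent.Y952.ST2

open Pool.Agent.W179.Erdos Pool.Agent.W179.ST

section graph

variable {V U : Type} (B C C' : SimpleGraph U) (D : SimpleGraph V) (x y : V)

/-- the vertices of the big graph -/
abbrev Vtx : Type :=
  U ⊕ ({p : U × U // B.Adj p.1 p.2 ∧ ¬ C.Adj p.1 p.2} × {w : V // w ≠ y})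

/-- adjacency of the big graph -/
def GAdj : Vtx B C y → Vtx B C y → Prop
  | Sum.inl i, Sum.inl j => C'.Adj i j
  | Sum.inl i, Sum.inr (p, w) => (i = p.1.2 ∧ D.Adj y w.1) ∨ (i = p.1.1 ∧ w.1 = x)
  | Sum.inr (p, w), Sum.inl i => (i = p.1.2 ∧ D.Adj y w.1) ∨ (i = p.1.1 ∧ w.1 = x)
  | Sum.inr (p, w), Sum.inr (p', w') => p = p' ∧ D.Adj w.1 w'.1

/-- `B` with the edges outside `C` replaced by gadgets and the edges inside `C` outside `C'`
removed. -/
def GG : SimpleGraph (Vtx B C y) where
  Adj := GAdj B C C' D x y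
  symm := ⟨by
    rintro (i | ⟨p, w⟩) (j | ⟨p', w'⟩) h
    · exact SimpleGraph.Adj.symm h
    · exact h
    · exact h
    · exact ⟨h.1.symm, SimpleGraph.Adj.symm h.2⟩⟩
  loopless := ⟨by
    rintro (i | ⟨p, w⟩) h
    · exact C'.loopless.irrefl i h
    · exact D.loopless.irrefl w.1 h.2⟩

theorem colour_ext {q q' : ℕ} (hqq : q ≤ q') (φ : D.Coloring (Fin q)) (hφ : φ x = φ y)
    (σ : U → Fin q') (h1 : ∀ i j, C'.Adj i j → σ i ≠ σ j)
    (h2 : ∀ i j, B.Adj i j → ¬ C.Adj i j → σ i ≠ σ j) :
    ∃ κ : (GG B C C' D x y).Coloring (Fin q'), ∀ i, κ (Sum.inl i) = σ i := by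
  let ι : Fin q → Fin q' := Fin.castLE hqq
  have hι : Function.Injective ι := Fin.castLE_injective hqq
  let κ : Vtx B C y → Fin q' := fun a => match a with
    | Sum.inl i => σ i
    | Sum.inr (p, w) => Equiv.swap (ι (φ y)) (σ p.1.2) (ι (φ w.1))
  have hy : ∀ p : {p : U × U // B.Adj p.1 p.2 ∧ ¬ C.Adj p.1 p.2},
      Equiv.swap (ι (φ y)) (σ p.1.2) (ι (φ y)) = σ p.1.2 := fun p => Equiv.swap_apply_left _ _
  have key : ∀ i p w, GAdj B C C' D x y (Sum.inl i) (Sum.inr (p, w)) →
      σ i ≠ Equiv.swap (ι (φ y)) (σ p.1.2) (ι (φ w.1)) := by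
    intro i p w h
    rcases h with ⟨rfl, h⟩ | ⟨rfl, h⟩
    · conv_lhs => rw [← hy p]
      intro he
      exact φ.valid h (hι ((Equiv.swap _ _).injective he))
    · rw [h, hφ, hy p]
      exact h2 _ _ p.2.1 p.2.2
  refine ⟨SimpleGraph.Coloring.mk κ ?_, fun i => rfl⟩
  rintro (i | ⟨p, w⟩) (j | ⟨p', w'⟩) h
  · exact h1 i j h
  · exact key i p' w' h
  · exact (key j p w h).symm
  · obtain ⟨h3, h4⟩ := h
    subst h3
    intro he
    exact φ.valid h4 (hι ((Equiv.swap _ _).injective he))

theorem not_col {q : ℕ} (hq : ¬ B.Colorable q) (hall : ∀ c : D.Coloring (Fin q), c x = c y)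
    (hxy : x ≠ y) : ¬ (GG B C C D x y).Colorable q := by
  classical
  rintro ⟨c⟩
  apply hq
  refine ⟨SimpleGraph.Coloring.mk (fun i : U => c (Sum.inl i)) ?_⟩
  · intro i j hne hij
    by_cases hC : C.Adj i j
    · exact c.valid (show (GG B C C D x y).Adj (Sum.inl i) (Sum.inl j) from hC) hij
    · let p : {p : U × U // B.Adj p.1 p.2 ∧ ¬ C.Adj p.1 p.2} := ⟨(i, j), hne, hC⟩
      let cc : V → Fin q := fun w => if h : w = y then c (Sum.inl j) else c (Sum.inr (p, ⟨w, h⟩))
      have hcc : ∀ {a b : V}, D.Adj a b → cc a ≠ cc b := by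
        intro a b hab
        by_cases ha : a = y
        · by_cases hb : b = y
          · subst ha; subst hb; exact absurd hab (D.loopless.irrefl _)
          · simp only [cc, dif_pos ha, dif_neg hb]
            apply c.valid
            left
            exact ⟨rfl, by subst ha; exact hab⟩
        · by_cases hb : b = y
          · simp only [cc, dif_pos hb, dif_neg ha]
            apply c.valid
            left
            exact ⟨rfl, by subst hb; exact hab.symm⟩
          · simp only [cc, dif_neg ha, dif_neg hb]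
            apply c.valid
            exact ⟨rfl, hab⟩
      have h1 := hall (SimpleGraph.Coloring.mk cc hcc)
      have h2 : cc x = cc y := h1
      simp only [cc, dif_neg hxy, dif_pos rfl] at h2
      have h3 : (GG B C C D x y).Adj (Sum.inl i) (Sum.inr (p, ⟨x, hxy⟩)) := Or.inr ⟨rfl, rfl⟩
      apply c.valid h3
      rw [h2]
      exact hij

/-- forget the copy -/
def proj : Vtx B C y → V
  | Sum.inl _ => y
  | Sum.inr (_, w) => w.1

theorem short {Hf : SimpleGraph V} {g : ℕ} (hle : D ≤ Hf) (hxy : Hf.Adj x y) (hnD : ¬ D.Adj x y)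
    (hg : ∀ l f, FCyc Hf l f → g < l) {l : ℕ} {f : ℕ → Vtx B C y} (h : FCyc (GG B C C' D x y) l f)
    (hl : l ≤ g) : ∀ i < l, ∃ a, f i = Sum.inl a := by
  intro i0 hi0
  by_contra hcon
  have h3 := h.three
  obtain ⟨p, w0, hp⟩ : ∃ p w, f i0 = Sum.inr (p, w) := by
    rcases hf : f i0 with a | ⟨p, w⟩
    · exact absurd ⟨a, hf⟩ hcon
    · exact ⟨p, w, rfl⟩
  by_cases hall : ∀ i < l, ∃ w, f i = Sum.inr (p, w)
  · -- all in one copy
    have : FCyc Hf l (fun i => proj B C y (f i)) := by
      refine ⟨h3, ?_, ?_, ?_⟩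
      · intro i hi j hj hij
        obtain ⟨w, hw⟩ := hall i hi
        obtain ⟨w', hw'⟩ := hall j hj
        apply h.inj i hi j hj
        rw [hw, hw'] at hij ⊢
        have : w = w' := Subtype.ext hij
        rw [this]
      · intro i hi
        obtain ⟨w, hw⟩ := hall i (by omega)
        obtain ⟨w', hw'⟩ := hall (i + 1) hi
        have h4 := h.adj i hi
        rw [hw, hw'] at h4
        show Hf.Adj (proj B C y (f i)) (proj B C y (f (i + 1)))
        rw [hw, hw']
        exact hle h4.2
      · obtain ⟨w, hw⟩ := hall (l - 1) (by omega)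
        obtain ⟨w', hw'⟩ := hall 0 (by omega)
        have h4 := h.close
        rw [hw, hw'] at h4
        show Hf.Adj (proj B C y (f (l - 1))) (proj B C y (f 0))
        rw [hw, hw']
        exact hle h4.2
    have := hg _ _ this
    omega
  · push Not at hall
    obtain ⟨i1, hi1, hn1⟩ := hall
    obtain ⟨t, ht, hnt, hint⟩ := exists_boundary (by omega)
      (fun i => ∃ w, f i = Sum.inr (p, w)) i0 i1 hi0 hi1 ⟨w0, hp⟩ (by push Not; exact hn1)
    set f' : ℕ → Vtx B C y := fun i => f ((i + t) % l) with hf'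
    have h' : FCyc (GG B C C' D x y) l f' := FCyc.rotate h t
    have hz : ¬ ∃ w, f' 0 = Sum.inr (p, w) := by
      simp only [hf', zero_add, Nat.mod_eq_of_lt ht]
      exact hnt
    have ho : ∃ w, f' 1 = Sum.inr (p, w) := by
      simp only [hf', add_comm 1 t]
      exact hint
    -- neighbours of the copy
    have hnb : ∀ a w, (¬ ∃ w, a = Sum.inr (p, w)) → (GG B C C' D x y).Adj a (Sum.inr (p, w)) →
        ∃ i, a = Sum.inl i ∧ ((i = p.1.2 ∧ D.Adj y w.1) ∨ (i = p.1.1 ∧ w.1 = x)) := by
      rintro (i | ⟨p', w'⟩) w hna hadj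
      · exact ⟨i, rfl, hadj⟩
      · exfalso
        apply hna
        refine ⟨w', ?_⟩
        rw [hadj.1]
    classical
    have hex : ∃ m, 1 < m ∧ (m = l ∨ ¬ ∃ w, f' m = Sum.inr (p, w)) := ⟨l, by omega, Or.inl rfl⟩
    set m := Nat.find hex with hm
    obtain ⟨hm1, hm2⟩ := Nat.find_spec hex
    rw [← hm] at hm1 hm2
    have hml : m ≤ l := Nat.find_min' hex ⟨by omega, Or.inl rfl⟩
    have hin : ∀ j, 1 ≤ j → j < m → ∃ w, f' j = Sum.inr (p, w) := by
      intro j h1 h2
      rcases Nat.lt_or_ge 1 j with h4 | h4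
      · have := Nat.find_min hex h2
        rw [not_and_or, not_or, not_not] at this
        rcases this with h5 | h5
        · exact absurd h4 h5
        · exact h5.2
      · have : j = 1 := by omega
        rw [this]; exact ho
    obtain ⟨w1, hw1⟩ := ho
    obtain ⟨wl, hwl⟩ := hin (m - 1) (by omega) (by omega)
    have hadj0 : (GG B C C' D x y).Adj (f' 0) (f' 1) := h'.adj 0 (by omega)
    rw [hw1] at hadj0
    obtain ⟨a, ha, ha'⟩ := hnb _ _ hz hadj0
    -- the end of the segment
    obtain ⟨e, he, hee, hadj1⟩ : ∃ e, e < l ∧ (¬ ∃ w, f' e = Sum.inr (p, w)) ∧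
        (GG B C C' D x y).Adj (f' e) (f' (m - 1)) ∧ (m = 2 → e = 2) := by
      by_cases hme : m = l
      · refine ⟨0, by omega, hz, ?_, by omega⟩
        rw [hme]
        exact h'.close.symm
      · refine ⟨m, by omega, ?_, ?_, fun h => h⟩
        · rcases hm2 with h5 | h5
          · exact absurd h5 hme
          · exact h5
        · have := h'.adj (m - 1) (by omega)
          have e1 : m - 1 + 1 = m := by omega
          rw [e1] at this
          exact this.symm
    obtain ⟨hadj1, he2⟩ := hadj1
    rw [hwl] at hadj1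
    obtain ⟨b, hb, hb'⟩ := hnb _ _ hee hadj1
    by_cases hm2' : m = 2
    · -- a segment of length one
      have he3 := he2 hm2'
      have hab : a ≠ b := by
        intro hab
        have : f' 0 = f' e := by rw [ha, hb, hab]
        have := h'.inj 0 (by omega) e he this
        omega
      have hww : w1 = wl := by
        have e1 : m - 1 = 1 := by omega
        rw [e1, hw1] at hwl
        have := Sum.inr.inj hwl
        exact (Prod.mk.inj this).2
      subst hww
      rcases ha' with ⟨h5, h6⟩ | ⟨h5, h6⟩ <;> rcases hb' with ⟨h7, h8⟩ | ⟨h7, h8⟩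
      · exact hab (h5.trans h7.symm)
      · rw [h8] at h6; exact hnD h6.symm
      · rw [h6] at h8; exact hnD h8.symm
      · exact hab (h5.trans h7.symm)
    · have hyw : ∀ w : {w : V // w ≠ y}, ∀ i : U,
          ((i = p.1.2 ∧ D.Adj y w.1) ∨ (i = p.1.1 ∧ w.1 = x)) → Hf.Adj y w.1 := by
        intro w i hi
        rcases hi with ⟨-, h5⟩ | ⟨-, h5⟩
        · exact hle h5
        · rw [h5]; exact hxy.symm
      have : FCyc Hf m (fun i => proj B C y (f' i)) := by
        refine ⟨by omega, ?_, ?_, ?_⟩
        · intro i hi j hj hij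
          rcases Nat.eq_zero_or_pos i with rfl | hi0
          · rcases Nat.eq_zero_or_pos j with rfl | hj0
            · rfl
            · exfalso
              obtain ⟨w, hw⟩ := hin j hj0 hj
              rw [ha, hw] at hij
              exact w.2 hij.symm
          · rcases Nat.eq_zero_or_pos j with rfl | hj0
            · exfalso
              obtain ⟨w, hw⟩ := hin i hi0 hi
              rw [ha, hw] at hij
              exact w.2 hij
            · obtain ⟨w, hw⟩ := hin i hi0 hi
              obtain ⟨w', hw'⟩ := hin j hj0 hj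
              apply h'.inj i (by omega) j (by omega)
              rw [hw, hw'] at hij ⊢
              have : w = w' := Subtype.ext hij
              rw [this]
        · intro i hi
          show Hf.Adj (proj B C y (f' i)) (proj B C y (f' (i + 1)))
          rcases Nat.eq_zero_or_pos i with rfl | hi0
          · rw [ha, zero_add, hw1]
            exact hyw w1 a ha'
          · obtain ⟨w, hw⟩ := hin i hi0 (by omega)
            obtain ⟨w', hw'⟩ := hin (i + 1) (by omega) hi
            have h4 := h'.adj i (by omega)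
            rw [hw, hw'] at h4 ⊢
            exact hle h4.2
        · show Hf.Adj (proj B C y (f' (m - 1))) (proj B C y (f' 0))
          rw [ha, hwl]
          exact (hyw wl b hb').symm
      have := hg _ _ this
      omega

end graph

end Pool.Agent.Y952.ST2
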